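import Mathlib

set_option autoImplicit false

namespace Pool.Agent.H.MP_c30670_an

open Finset Real Filter Topology MeasureTheory
open scoped ENNReal

theorem grun {X : Type} [NormedAddCommGroup X] [NormedSpace ℝ X] [CompleteSpace X] (f : ℕ → X)
    {K : ℝ} (K0 : 0 ≤ K) (hK : ∀ (a : ℕ → ℝ) (m k : ℕ), m ≤ k →
      ‖∑ n ∈ range m, a n • f n‖ ≤ K * ‖∑ n ∈ range k, a n • f n‖) (h0 : ∀ n, f n ≠ 0)
    (hd : Dense (Submodule.span ℝ (Set.range f) : Set X)) :
    ∃ b : SchauderBasis ℝ X, (∀ n, b n = f n) ∧ ∀ m, ‖b.proj m‖ ≤ K := by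
  let T := Finsupp.linearCombination ℝ f
  have hT : DenseRange T := by rwa [← Finsupp.range_linearCombination] at hd
  have h1 : ∀ a : ℕ →₀ ℝ, ∀ᶠ N in atTop, ∑ n ∈ range N, a n • f n = T a := fun a => by
    obtain ⟨M, hM⟩ := a.support.exists_nat_subset_range
    filter_upwards [eventually_ge_atTop M] with N hN
    exact (Finsupp.sum_of_support_subset a (hM.trans (range_mono hN)) (fun i c => c • f i)
      fun _ _ => zero_smul _ _).symm
  have h2 : ∀ (a : ℕ →₀ ℝ) m, ‖∑ n ∈ range m, a n • f n‖ ≤ K * ‖T a‖ := fun a m => by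
    obtain ⟨N, h3, h4⟩ := ((h1 a).and (eventually_ge_atTop m)).exists
    exact h3 ▸ hK a m N h4
  have h3 : ∀ n, ∃ C, ∀ a : ℕ →₀ ℝ, ‖Finsupp.lapply (R := ℝ) n a‖ ≤ C * ‖T a‖ := fun n => by
    refine ⟨2 * K / ‖f n‖, fun a => ?_⟩
    have := norm_sub_le_of_le (h2 a (n + 1)) (h2 a n)
    rw [sum_range_succ, add_sub_cancel_left, norm_smul] at this
    rw [div_mul_eq_mul_div, le_div_iff₀ (norm_pos_iff.2 (h0 n)), Finsupp.lapply_apply]
    linarith
  let P : ℕ → X →L[ℝ] X := fun m => ∑ n ∈ range m,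
    ((Finsupp.lapply (R := ℝ) n).extendOfNorm T).smulRight (f n)
  have h4 : ∀ m y, P m y = ∑ n ∈ range m, (Finsupp.lapply (R := ℝ) n).extendOfNorm T y • f n :=
    fun m y => by simp [P]
  have h5 : ∀ m a, P m (T a) = ∑ n ∈ range m, a n • f n := fun m a => by
    simp only [h4, LinearMap.extendOfNorm_eq hT (h3 _), Finsupp.lapply_apply]
  have h6 : ∀ m y, ‖P m y‖ ≤ K * ‖y‖ := fun m y => hT.induction_on y
    (isClosed_le (by fun_prop) (by fun_prop)) fun a => h5 m a ▸ h2 a m
  refine ⟨⟨f, fun n => (Finsupp.lapply (R := ℝ) n).extendOfNorm T, fun i j => ?_, fun x => ?_⟩, fun _ => rfl,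
    fun m => ContinuousLinearMap.opNorm_le_bound _ K0 fun y => ?_⟩
  · have : f j = T (Finsupp.single j 1) := by simp [T]
    rw [this, LinearMap.extendOfNorm_eq hT (h3 _)]
    simp [Finsupp.single_apply, Pi.single_apply, eq_comm]
  · rw [HasSum, SummationFilter.conditional_filter_eq_map_range, tendsto_map'_iff]
    simp only [Function.comp_def, ← h4]
    refine Metric.tendsto_nhds.2 fun ε hε => ?_
    obtain ⟨a, ha⟩ := hT.exists_dist_lt x (show 0 < ε / (|K| + 1) by positivity)
    filter_upwards [h1 a] with N hN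
    rw [dist_eq_norm, lt_div_iff₀ (by positivity)] at ha
    have h7 := (h6 N (x - T a)).trans (mul_le_mul_of_nonneg_right (le_abs_self K) (norm_nonneg _))
    rw [map_sub, h5, hN] at h7
    have h8 := norm_sub_le (P N x - T a) (x - T a)
    rw [sub_sub_sub_cancel_right] at h8
    rw [dist_eq_norm]
    linarith
  · rw [SchauderBasis.proj_apply]
    exact h4 m y ▸ h6 m y

variable (P : ℝ≥0∞)

/-- `p`-integrable functions -/
def M : Submodule ℝ (ℝ → ℝ) where
  carrier := {f | MemLp f P volume}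
  add_mem' h h' := MemLp.add h h'
  zero_mem' := MemLp.zero
  smul_mem' c _ h := MemLp.const_smul h c

/-- the class of a function -/
noncomputable def T : M P →ₗ[ℝ] Lp ℝ P (volume : Measure ℝ) where
  toFun f := MemLp.toLp f.1 f.2
  map_add' f g := MemLp.toLp_add f.2 g.2
  map_smul' c f := MemLp.toLp_const_smul c f.2

/-- indicator of an interval -/
noncomputable def ind (a b : ℝ) : M P :=
  ⟨(Set.Ico a b).indicator fun _ => 1, memLp_indicator_const P measurableSet_Ico 1 (by simp)⟩

variable {P}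

lemma ind_apply (a b x : ℝ) : (ind P a b).1 x = if a ≤ x ∧ x < b then 1 else 0 := by
  simp [ind, Set.indicator_apply]

lemma ind_int {a b : ℝ} (h : a ≤ b) (c : ℝ) :
    Integrable (fun x => c * (ind P a b).1 x) ∧ ∫ x, c * (ind P a b).1 x = c * (b - a) := by
  refine ⟨Integrable.const_mul ((integrable_indicator_iff measurableSet_Ico).2
    (integrableOn_const (by simp))) c, ?_⟩
  rw [integral_const_mul, ind, integral_indicator_const _ measurableSet_Ico,
    Real.volume_real_Ico_of_le h, smul_eq_mul, mul_one]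

lemma ind_add {a b c : ℝ} (h : a ≤ b) (h' : b ≤ c) : ind P a b + ind P b c = ind P a c :=
  Subtype.ext (funext fun x => by
    simp only [Submodule.coe_add, Pi.add_apply, ind_apply]
    split_ifs <;> grind)

/-- signed indicator -/
noncomputable def gm (P : ℝ≥0∞) (x : ℝ) : M P := ind P 0 x - ind P x 0

lemma gm_add {a b : ℝ} (h : a ≤ b) : gm P a + ind P a b = gm P b :=
  Subtype.ext (funext fun x => by
    simp only [gm, Submodule.coe_add, Submodule.coe_sub, Pi.add_apply, Pi.sub_apply, ind_apply]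
    split_ifs <;> grind)

lemma Tn (f : M 1) : ‖T 1 f‖ = ∫ x, |f.1 x| := by
  rw [show ‖T 1 f‖ = _ from Lp.norm_toLp f.1 f.2,
    MemLp.eLpNorm_eq_integral_rpow_norm one_ne_zero (by simp) f.2]
  simp only [ENNReal.toReal_one, rpow_one, inv_one]
  exact ENNReal.toReal_ofReal (integral_nonneg fun _ => norm_nonneg _)

lemma dsum {ι : Type} (s : Finset ι) (a b c : ι → ℝ) (hab : ∀ i ∈ s, a i ≤ b i)
    (hd : Pairwise fun i j => Disjoint (Set.Ico (a i) (b i)) (Set.Ico (a j) (b j))) :
    ‖T 1 (∑ i ∈ s, c i • ind 1 (a i) (b i))‖ = ∑ i ∈ s, |c i| * (b i - a i) := by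
  rw [Tn, ← sum_congr rfl fun i hi => (ind_int (P := 1) (hab i hi) _).2,
    ← integral_finset_sum _ fun i hi => (ind_int (hab i hi) _).1]
  congr 1
  funext x
  simp only [Submodule.coe_sum, Finset.sum_apply, Submodule.coe_smul, Pi.smul_apply, smul_eq_mul,
    ind_apply]
  by_cases h : ∃ i ∈ s, x ∈ Set.Ico (a i) (b i)
  · obtain ⟨i, hs, hi⟩ := h
    have h1 : ∀ j, j ≠ i → ¬ (a j ≤ x ∧ x < b j) := fun j hj hx =>
      Set.disjoint_left.1 (hd hj) hx hi
    rw [sum_eq_single i (fun j _ hj => by simp [h1 j hj]) (by simp [hs]),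
      sum_eq_single i (fun j _ hj => by simp [h1 j hj]) (by simp [hs]),
      if_pos (Set.mem_Ico.1 hi), mul_one, mul_one]
  · have h1 : ∀ j ∈ s, ¬ (a j ≤ x ∧ x < b j) := fun j hj hx => h ⟨j, hj, hx⟩
    rw [sum_eq_zero fun j hj => by simp [h1 j hj], sum_eq_zero fun j hj => by simp [h1 j hj], abs_zero]

lemma ind_norm {a b : ℝ} (h : a ≤ b) (c : ℝ) : ‖T 1 (c • ind 1 a b)‖ = |c| * (b - a) := by
  simpa using dsum (ι := Unit) univ (fun _ => a) (fun _ => b) (fun _ => c) (fun _ _ => h)
    Subsingleton.pairwise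

lemma top_of {q : ℝ} (q0 : 0 ≤ q) (q1 : q < 1) (Y : Submodule ℝ (Lp ℝ 1 (volume : Measure ℝ)))
    (hY : IsClosed (Y : Set (Lp ℝ 1 (volume : Measure ℝ))))
    (h : ∀ x : ℝ, ∀ r : ℕ, ∃ e, e ≤ x ∧ x - e ≤ q ^ r ∧ T 1 (gm 1 e) ∈ Y)
    (f : Lp ℝ 1 (volume : Measure ℝ)) : f ∈ Y := by
  have h1 : ∀ x, T 1 (gm 1 x) ∈ Y := fun x => by
    choose e h1 h2 h3 using h x
    refine hY.mem_of_tendsto (b := atTop) (tendsto_iff_norm_sub_tendsto_zero.2 (squeeze_zero
      (fun _ => norm_nonneg _) (fun r => ?_) (tendsto_pow_atTop_nhds_zero_of_lt_one q0 q1)))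
      (Eventually.of_forall h3)
    rw [norm_sub_rev, ← map_sub, ← gm_add (h1 r), add_sub_cancel_left, ← one_smul ℝ (ind _ _ _),
      ind_norm (h1 r)]
    simpa using h2 r
  have h2 : ∀ a b, T 1 (ind 1 a b) ∈ Y := fun a b => by
    rcases le_total a b with h3 | h3
    · rw [eq_sub_of_add_eq' (gm_add h3), map_sub]
      exact Y.sub_mem (h1 b) (h1 a)
    · rw [show ind 1 a b = 0 from Subtype.ext (funext fun x => by
        rw [ind_apply, if_neg (by grind)]; rfl), map_zero]
      exact Y.zero_mem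
  have h3 : ∀ (s : ℕ → Set ℝ) (hs : ∀ n, MeasurableSet (s n)) (u : Set ℝ) (hu : MeasurableSet u)
      (hf : volume u ≠ ⊤) (hsu : ∀ n, s n ⊆ u), Monotone s → u ⊆ ⋃ n, s n →
      (∀ n, indicatorConstLp 1 (hs n) (measure_ne_top_of_subset (hsu n) hf) (1 : ℝ) ∈ Y) →
      indicatorConstLp 1 hu hf (1 : ℝ) ∈ Y := fun s hs u hu hf hsu hm hc hY' => by
    refine hY.mem_of_tendsto (b := atTop) (tendsto_indicatorConstLp_set (by simp) ?_)
      (Eventually.of_forall hY')
    have := tendsto_measure_iInter_atTop (μ := volume) (s := fun n => u \ s n)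
      (fun n => (hu.diff (hs n)).nullMeasurableSet) (fun i j h => Set.diff_subset_diff_right (hm h))
      ⟨0, measure_ne_top_of_subset Set.diff_subset hf⟩
    rw [← Set.diff_iUnion, Set.diff_eq_empty.2 hc, measure_empty] at this
    simp only [fun n => symmDiff_of_le (hsu n)]
    exact this
  have h4 : ∀ (a b : ℝ) (s : Set ℝ) (hs : MeasurableSet s), indicatorConstLp 1
      (hs.inter (measurableSet_Ico (a := a) (b := b)))
      (measure_ne_top_of_subset Set.inter_subset_right (by simp)) (1 : ℝ) ∈ Y := fun a b => by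
    refine MeasurableSpace.induction_on_inter (borel_eq_generateFrom_Iio ℝ) isPiSystem_Iio ?_ ?_
      (fun s hs ih => ?_) fun s hd hs ih => ?_
    · simp
    · rintro _ ⟨c, rfl⟩
      convert h2 a (min b c) using 1
      simp only [Set.inter_comm (Set.Iio c), Set.Ico_inter_Iio]
      rfl
    · have := indicatorConstLp_disjoint_union (p := 1) (μ := volume)
        (hs.inter (measurableSet_Ico (a := a) (b := b)))
        (hs.compl.inter (measurableSet_Ico (a := a) (b := b)))
        (measure_ne_top_of_subset Set.inter_subset_right (by simp))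
        (measure_ne_top_of_subset Set.inter_subset_right (by simp))
        (disjoint_compl_right.mono Set.inter_subset_left Set.inter_subset_left) (1 : ℝ)
      refine (eq_sub_iff_add_eq'.2 this.symm).symm ▸ Y.sub_mem ?_ ih
      convert h2 a b using 1
      simp only [← Set.union_inter_distrib_right, Set.union_compl_self, Set.univ_inter]
      rfl
    · refine h3 (fun n => Set.accumulate s n ∩ Set.Ico a b) (fun n => (MeasurableSet.biUnion
        (Set.to_countable _) fun i _ => hs i).inter measurableSet_Ico) _ _ _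
        (fun n => Set.inter_subset_inter_left _ (Set.accumulate_subset_iUnion n))
        (fun i j h => Set.inter_subset_inter_left _ (Set.monotone_accumulate h))
        (by rw [← Set.iUnion_inter, Set.iUnion_accumulate]) fun n => ?_
      induction n with
      | zero => simpa using ih 0
      | succ n ih' =>
        convert Y.add_mem ih' (ih (n + 1)) using 1
        rw [← indicatorConstLp_disjoint_union _ _ _ _ ((Set.disjoint_accumulate hd
          n.lt_succ_self).mono Set.inter_subset_left Set.inter_subset_left)]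
        simp only [Set.accumulate_succ, Set.union_inter_distrib_right]
  refine Lp.induction (by simp) (· ∈ Y) (fun c s hs hf => ?_)
    (fun _ _ _ _ _ h5 h6 => Y.add_mem h5 h6) hY f
  have h5 := h3 (fun n => s ∩ Set.Ico (-n : ℝ) n) (fun n => hs.inter measurableSet_Ico) s hs hf.ne
    (fun n => Set.inter_subset_left) (fun i j h => Set.inter_subset_inter_right _
      (Set.Ico_subset_Ico (by simpa using h) (by simpa using h))) (fun x hx => by
        obtain ⟨n, hn⟩ := exists_nat_gt |x|
        exact Set.mem_iUnion.2 ⟨n, hx, (abs_lt.1 hn).1.le, (abs_lt.1 hn).2⟩) fun n => h4 _ _ s hs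
  convert Y.smul_mem c h5
  rw [Lp.simpleFunc.coe_indicatorConst, indicatorConstLp, indicatorConstLp,
    ← MemLp.toLp_const_smul]
  congr 1
  funext x
  by_cases hx : x ∈ s <;> simp [hx]

end Pool.Agent.H.MP_c30670_an
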