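import Mathlib
import Pool.Agent.H.MP_c30670_an.A

set_option autoImplicit false

namespace Pool.Agent.H.MP_c30670_an

open Finset Real Filter Topology MeasureTheory
open scoped ENNReal

noncomputable section

/-- the label split at time `t` -/
def lab (t : ℕ) : ℕ := t.unpair.1

lemma lab_le (t : ℕ) : lab t ≤ t := t.unpair_left_le

/-- integers -/
def ze (n : ℕ) : ℤ := (Denumerable.eqv ℤ).symm n

variable (θ : ℝ)

/-- cut point -/
def cut (x : ℝ × ℝ) : ℝ := x.2 - θ * (x.2 - x.1)

/-- the atoms -/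
def st : ℕ → ℕ → ℝ × ℝ
  | 0, n => if n % 2 = 0 then (ze (n / 2), ze (n / 2) + 1) else (0, 0)
  | t + 1, n => if n = lab t then ((st t (lab t)).1, cut θ (st t (lab t))) else if n = 2 * t + 1 then
      (cut θ (st t (lab t)), (st t (lab t)).2) else st t n

lemma s1 (t : ℕ) : st θ (t + 1) (lab t) = ((st θ t (lab t)).1, cut θ (st θ t (lab t))) := by rw [st, if_pos rfl]

lemma s2 (t : ℕ) : st θ (t + 1) (2 * t + 1) = (cut θ (st θ t (lab t)), (st θ t (lab t)).2) := by
  have := lab_le t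
  rw [st, if_neg (by omega), if_pos rfl]

lemma s3 {t n : ℕ} (h : n ≠ lab t) (h' : n ≠ 2 * t + 1) : st θ (t + 1) n = st θ t n := by
  rw [st, if_neg h, if_neg h']

lemma st_new {t n : ℕ} (h : 2 * t ≤ n) : st θ t n = st θ 0 n := by
  induction t with
  | zero => rfl
  | succ t ih =>
    have := lab_le t
    rw [s3 θ (by omega) (by omega), ih (by omega)]

/-- the atoms as sets -/
def A (t n : ℕ) : Set ℝ := Set.Ico (st θ t n).1 (st θ t n).2

/-- indicators of atoms -/
def ia (t n : ℕ) : M 1 := ind 1 (st θ t n).1 (st θ t n).2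

/-- lengths of atoms -/
def ln (t n : ℕ) : ℝ := (st θ t n).2 - (st θ t n).1

/-- normalised indicators -/
def E (t n : ℕ) : M 1 := (ln θ t n)⁻¹ • ia θ t n

/-- the basis -/
def F (n : ℕ) : M 1 := if n = 0 then E θ 0 0 else if n % 2 = 1 then
  E θ (n / 2 + 1) (lab (n / 2)) + E θ (n / 2 + 1) (n + 1) else E θ (n / 2) (n - 1) + E θ (n / 2) n

lemma F1 (t : ℕ) : F θ (2 * t + 1) = E θ (t + 1) (lab t) + E θ (t + 1) (2 * t + 2) := by
  rw [F, if_neg (by omega), if_pos (by omega), show (2 * t + 1) / 2 = t by omega]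

lemma F2 (t : ℕ) : F θ (2 * t + 2) = E θ (t + 1) (2 * t + 1) + E θ (t + 1) (2 * t + 2) := by
  rw [F, if_neg (by omega), if_neg (by omega), show (2 * t + 2) / 2 = t + 1 by omega]
  rfl

lemma E3 {t n : ℕ} (h : n ≠ lab t) (h' : n ≠ 2 * t + 1) : E θ (t + 1) n = E θ t n := by
  simp only [E, ln, ia, s3 θ h h']

/-- masses -/
def ms (a : ℕ → ℝ) : ℕ → ℕ → ℝ
  | 0, _ => a 0
  | t + 1, n => if n = lab t then (1 - θ) * ms a t n + a (2 * t + 1) else if n = 2 * t + 1 then
      θ * ms a t (lab t) + a (2 * t + 2) else if n = 2 * t + 2 then a (2 * t + 1) + a (2 * t + 2) else ms a t n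

lemma stp {V : Type} [AddCommGroup V] (t : ℕ) (u v : ℕ → V) (h : ∀ n, n ≠ lab t → n ≤ 2 * t → u n = v n) :
    ∑ n ∈ range (2 * (t + 1) + 1), u n =
      ∑ n ∈ range (2 * t + 1), v n - v (lab t) + u (lab t) + u (2 * t + 1) + u (2 * t + 2) := by
  have l : lab t ∈ range (2 * t + 1) := mem_range.2 (by have := lab_le t; omega)
  rw [mul_add_one, sum_range_succ, sum_range_succ, ← add_sum_erase _ u l, ← add_sum_erase _ v l,
    sum_congr rfl fun n hn => h n (mem_erase.1 hn).1 (by have := mem_range.1 (mem_erase.1 hn).2; omega)]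
  abel

/-- total mass -/
def N (a : ℕ → ℝ) (t : ℕ) : ℝ := ∑ n ∈ range (2 * t + 1), |ms θ a t n|

lemma Ns (a : ℕ → ℝ) (t : ℕ) : N θ a (t + 1) = N θ a t - |ms θ a t (lab t)| +
    |(1 - θ) * ms θ a t (lab t) + a (2 * t + 1)| + |θ * ms θ a t (lab t) + a (2 * t + 2)| +
    |a (2 * t + 1) + a (2 * t + 2)| := by
  have := lab_le t
  rw [N, stp t _ (fun n => |ms θ a t n|) fun n h h' => by
    rw [ms, if_neg h, if_neg (by omega), if_neg (by omega)]]
  simp only [ms, if_true]
  rw [if_neg (by omega), if_neg (by omega), if_neg (by omega), N]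

lemma Nm (a : ℕ → ℝ) : Monotone (N θ a) := monotone_nat_of_le_succ fun t => by
  rw [Ns]
  generalize ms θ a t (lab t) = c
  have := abs_add_three ((1 - θ) * c + a (2 * t + 1)) (θ * c + a (2 * t + 2)) (-(a (2 * t + 1) + a (2 * t + 2)))
  rw [abs_neg, show (1 - θ) * c + a (2 * t + 1) + (θ * c + a (2 * t + 2)) + -(a (2 * t + 1) + a (2 * t + 2)) = c by
    ring] at this
  linarith

lemma ms_eq {a b : ℕ → ℝ} {t : ℕ} (h : ∀ n ≤ 2 * t, a n = b n) (n : ℕ) : ms θ a t n = ms θ b t n := by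
  induction t generalizing n with
  | zero => exact h 0 le_rfl
  | succ t ih =>
    simp only [ms, ih fun n hn => h n (by omega), h (2 * t + 1) (by omega), h (2 * t + 2) (by omega)]

variable {θ} (h0 : 0 < θ) (h1 : θ ≤ 1 / 2)
include h0 h1

lemma ln_pos {t n : ℕ} (h : n ≤ 2 * t) : 0 < ln θ t n := by
  induction t generalizing n with
  | zero => simp at h; simp [h, ln, st]
  | succ t ih =>
    have := lab_le t
    have a := ih (n := lab t) (by omega)
    unfold ln at *
    by_cases h2 : n = lab t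
    · rw [h2, s1, cut]
      nlinarith
    by_cases h3 : n = 2 * t + 1
    · rw [h3, s2, cut]
      nlinarith
    rw [s3 θ h2 h3]
    rcases le_or_gt n (2 * t) with h4 | h4
    · exact ih h4
    rw [st_new θ h4.le, st, if_pos (by omega)]
    simp

lemma cut_mem (t : ℕ) : (st θ t (lab t)).1 ≤ cut θ (st θ t (lab t)) ∧ cut θ (st θ t (lab t)) ≤ (st θ t (lab t)).2 := by
  have := ln_pos h0 h1 (t := t) (n := lab t) (by have := lab_le t; omega)
  unfold ln cut at *
  constructor <;> nlinarith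

lemma A_disj (t : ℕ) : Pairwise fun m n => Disjoint (A θ t m) (A θ t n) := by
  induction t with
  | zero =>
    intro m n h
    simp only [A, st]
    split_ifs with h1 h2
    · have h3 : ze (m / 2) ≠ ze (n / 2) := (Denumerable.eqv ℤ).symm.injective.ne (by omega)
      exact Set.pairwise_disjoint_Ico_intCast ℝ h3
    all_goals simp
  | succ t ih =>
    have c := cut_mem h0 h1 t
    have a1 : A θ (t + 1) (lab t) ⊆ A θ t (lab t) := by
      rw [A, s1]
      exact Set.Ico_subset_Ico le_rfl c.2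
    have a2 : A θ (t + 1) (2 * t + 1) ⊆ A θ t (lab t) := by
      rw [A, s2]
      exact Set.Ico_subset_Ico c.1 le_rfl
    have a3 : ∀ n, n ≠ lab t → n ≠ 2 * t + 1 → A θ (t + 1) n = A θ t n := fun n p q => by rw [A, A, s3 θ p q]
    have a4 : Disjoint (A θ (t + 1) (lab t)) (A θ (t + 1) (2 * t + 1)) := by
      rw [A, A, s1, s2]
      exact Set.Ico_disjoint_Ico_same
    intro m n h
    by_cases p : m = lab t <;> by_cases p' : m = 2 * t + 1 <;> by_cases q : n = lab t <;> by_cases q' : n = 2 * t + 1 <;>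
      first
      | (exfalso; have := lab_le t; omega)
      | (rw [p, q']; exact a4)
      | (rw [p', q]; exact a4.symm)
      | (rw [a3 m p p', a3 n q q']; exact ih h)
      | (rw [a3 n q q', p]; exact (ih (Ne.symm q)).mono_left a1)
      | (rw [a3 n q q', p']; exact (ih (Ne.symm q)).mono_left a2)
      | (rw [a3 m p p', q]; exact (ih p).mono_right a1)
      | (rw [a3 m p p', q']; exact (ih p).mono_right a2)

lemma E1 (t : ℕ) : E θ t (lab t) = (1 - θ) • E θ (t + 1) (lab t) + θ • E θ (t + 1) (2 * t + 1) := by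
  have c := cut_mem h0 h1 t
  have := (ln_pos h0 h1 (t := t) (n := lab t) (by have := lab_le t; omega)).ne'
  have a1 : ln θ (t + 1) (lab t) = (1 - θ) * ln θ t (lab t) := by simp only [ln, s1, cut]; ring
  have a2 : ln θ (t + 1) (2 * t + 1) = θ * ln θ t (lab t) := by simp only [ln, s2, cut]; ring
  have : 1 - θ ≠ 0 := by linarith
  simp only [E, a1, a2, ia, s1, s2, smul_smul]
  rw [← ind_add c.1 c.2, smul_add]
  congr 2 <;> field_simp

lemma sumF (a : ℕ → ℝ) (t : ℕ) :
    ∑ n ∈ range (2 * t + 1), a n • F θ n = ∑ n ∈ range (2 * t + 1), ms θ a t n • E θ t n := by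
  induction t with
  | zero => simp [F, ms]
  | succ t ih =>
    have := lab_le t
    rw [stp t (fun n => ms θ a (t + 1) n • E θ (t + 1) n) (fun n => ms θ a t n • E θ t n) fun n h h' => by
      rw [ms, if_neg h, if_neg (by omega), if_neg (by omega), E3 θ h (by omega)], ← ih, mul_add_one, sum_range_succ,
      sum_range_succ, F1, F2, E1 h0 h1]
    simp only [ms, if_true]
    rw [if_neg (by omega), if_neg (by omega), if_neg (by omega)]
    module

lemma nF (a : ℕ → ℝ) (t : ℕ) : ‖T 1 (∑ n ∈ range (2 * t + 1), a n • F θ n)‖ = N θ a t := by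
  have p : ∀ n ∈ range (2 * t + 1), 0 < ln θ t n := fun n hn => ln_pos h0 h1 (by have := mem_range.1 hn; omega)
  simp only [sumF h0 h1, E, smul_smul, ia]
  rw [dsum _ _ _ _ (fun n hn => (sub_pos.1 (p n hn)).le) (A_disj h0 h1 t)]
  refine sum_congr rfl fun n hn => ?_
  have := p n hn
  rw [abs_mul, abs_of_pos (inv_pos.2 this), mul_assoc]
  exact mul_right_eq_self₀.2 (.inl (inv_mul_cancel₀ this.ne'))

/-- truncation -/
def tr (n : ℕ) (a : ℕ → ℝ) (k : ℕ) : ℝ := if k < n then a k else 0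

omit h0 h1 in
lemma trs {m k : ℕ} (h : m ≤ k) (a : ℕ → ℝ) :
    ∑ n ∈ range k, tr m a n • F θ n = ∑ n ∈ range m, a n • F θ n := by
  obtain ⟨r, rfl⟩ := Nat.exists_eq_add_of_le h
  rw [sum_range_add, sum_eq_zero (s := range r) fun i _ => by simp [tr], add_zero]
  exact sum_congr rfl fun i hi => by rw [tr, if_pos (mem_range.1 hi)]

lemma kb (a : ℕ → ℝ) {m t : ℕ} (h : m ≤ 2 * t + 1) :
    ‖T 1 (∑ n ∈ range m, a n • F θ n)‖ ≤ (1 + 2 * θ) * N θ a t := by
  have p : 0 ≤ N θ a t := sum_nonneg fun _ _ => abs_nonneg _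
  rcases m with - | m
  · simp only [range_zero, sum_empty, map_zero, norm_zero]
    positivity
  obtain ⟨s, rfl | rfl⟩ := m.even_or_odd'
  · rw [nF h0 h1]
    nlinarith [Nm θ a (show s ≤ t by omega)]
  have e : ∀ n, ms θ (tr (2 * s + 1 + 1) a) s n = ms θ a s n := ms_eq θ fun n hn => by rw [tr, if_pos (by omega)]
  rw [← trs (k := 2 * (s + 1) + 1) (by omega), nF h0 h1, Ns, tr, tr, if_pos (by omega), if_neg (by omega), N]
  simp only [e, add_zero]
  have a1 := Nm θ a (show s + 1 ≤ t by omega)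
  have a2 := Nm θ a (show s ≤ t by omega)
  have a3 : |ms θ a s (lab s)| ≤ N θ a s := single_le_sum (f := fun n => |ms θ a s n|) (fun _ _ => abs_nonneg _)
    (mem_range.2 (by have := lab_le s; omega))
  rw [Ns] at a1
  rw [N] at a1 a2 a3
  generalize ms θ a s (lab s) = c at *
  have := abs_add_three (a (2 * s + 1) + a (2 * s + 2)) (-(θ * c + a (2 * s + 2))) (θ * c)
  rw [abs_neg, show a (2 * s + 1) + a (2 * s + 2) + -(θ * c + a (2 * s + 2)) + θ * c = a (2 * s + 1) by ring] at this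
  rw [abs_mul, abs_of_pos h0] at this ⊢
  nlinarith

lemma span_ia {t n : ℕ} (h : n ≤ 2 * t) : ia θ t n ∈ Submodule.span ℝ (Set.range (F θ)) := by
  suffices E θ t n ∈ Submodule.span ℝ (Set.range (F θ)) by
    simpa [E, smul_smul, (ln_pos h0 h1 h).ne'] using Submodule.smul_mem _ (ln θ t n) this
  induction t generalizing n with
  | zero => exact Submodule.subset_span ⟨0, by rw [show n = 0 by omega, F, if_pos rfl]⟩
  | succ t ih =>
    have := lab_le t
    have a := ih (n := lab t) (by omega)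
    have b1 : F θ (2 * t + 1) ∈ Submodule.span ℝ (Set.range (F θ)) := Submodule.subset_span ⟨_, rfl⟩
    have b2 : F θ (2 * t + 2) ∈ Submodule.span ℝ (Set.range (F θ)) := Submodule.subset_span ⟨_, rfl⟩
    have c : E θ (t + 1) (2 * t + 2) ∈ Submodule.span ℝ (Set.range (F θ)) := by
      convert sub_mem (add_mem (Submodule.smul_mem _ (1 - θ) b1) (Submodule.smul_mem _ θ b2)) a using 1
      rw [F1, F2, E1 h0 h1]
      module
    by_cases p : n = lab t
    · simpa [F1, p] using sub_mem b1 c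
    by_cases q : n = 2 * t + 1
    · simpa [F2, q] using sub_mem b2 c
    by_cases r : n = 2 * t + 2
    · exact r ▸ c
    exact E3 θ p q ▸ ih (by omega)

lemma span_gm (t n : ℕ) : gm 1 (st θ t n).1 ∈ Submodule.span ℝ (Set.range (F θ)) := by
  have z0 : gm 1 0 = 0 := sub_self _
  induction t generalizing n with
  | zero =>
    have a1 : ∀ z : ℤ, ind 1 z (z + 1) ∈ Submodule.span ℝ (Set.range (F θ)) := fun z => by
      obtain ⟨m, rfl⟩ : ∃ m, ze m = z := (Denumerable.eqv ℤ).symm.surjective z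
      have := span_ia h0 h1 (t := m) le_rfl
      rwa [ia, st_new θ le_rfl, st, if_pos (by omega), show 2 * m / 2 = m by omega] at this
    have h2 : ∀ z : ℤ, gm 1 z ∈ Submodule.span ℝ (Set.range (F θ)) := fun z => by
      induction z with
      | zero => rw [Int.cast_zero, z0]; exact zero_mem _
      | succ z ih =>
        rw [Int.cast_add, Int.cast_one, ← gm_add (le_add_of_nonneg_right zero_le_one)]
        exact add_mem ih (a1 z)
      | pred z ih =>
        have h3 := gm_add (P := 1) (le_add_of_nonneg_right (a := ((-z - 1 : ℤ) : ℝ)) zero_le_one)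
        rw [eq_sub_iff_add_eq.2 h3]
        refine sub_mem ?_ (a1 _)
        rwa [Int.cast_sub, Int.cast_one, sub_add_cancel]
    rw [st]
    split_ifs
    · exact h2 _
    · rw [z0]; exact zero_mem _
  | succ t ih =>
    by_cases p : n = lab t
    · rw [p, s1]
      exact ih _
    by_cases q : n = 2 * t + 1
    · have := span_ia h0 h1 (t := t + 1) (n := lab t) (by have := lab_le t; omega)
      rw [ia, s1] at this
      rw [q, s2, ← gm_add (cut_mem h0 h1 t).1]
      exact add_mem (ih _) this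
    exact s3 θ p q ▸ ih n

lemma shrink (x : ℝ) (r : ℕ) : ∃ t n, n ≤ 2 * t ∧ x ∈ A θ t n ∧ ln θ t n ≤ (1 - θ) ^ r := by
  induction r with
  | zero =>
    refine ⟨Denumerable.eqv ℤ ⌊x⌋, _, le_rfl, ?_⟩
    simp [A, ln, st_new θ le_rfl, st, ze, Int.floor_le]
  | succ r ih =>
    obtain ⟨t, n, hn, h2, h3⟩ := ih
    by_contra! h
    have h4 : ∀ s, st θ (t + s) n = st θ t n → lab (t + s) ≠ n := fun s h4 h5 => by
      have := lab_le (t + s)
      have l := ln_pos h0 h1 hn
      have a1 := h (t + s + 1) (lab (t + s)) (by omega)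
      have a2 := h (t + s + 1) (2 * (t + s) + 1) (by omega)
      rw [A, ln, s1, h5, h4] at a1
      rw [A, ln, s2, h5, h4] at a2
      unfold ln cut at *
      rw [pow_succ] at a1 a2
      rcases lt_or_ge x ((st θ t n).2 - θ * ((st θ t n).2 - (st θ t n).1)) with c | c
      · have := a1 ⟨h2.1, c⟩
        nlinarith
      · have := a2 ⟨c, h2.2⟩
        nlinarith [pow_pos (show 0 < 1 - θ by linarith) r]
    have h5 : ∀ s, st θ (t + s) n = st θ t n := fun s => by
      induction s with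
      | zero => rfl
      | succ s ih => rw [← add_assoc, s3 θ (h4 s ih).symm (by omega), ih]
    obtain ⟨s, hs⟩ := Nat.exists_eq_add_of_le (Nat.right_le_pair n t)
    exact h4 s (h5 s) (by rw [← hs, lab, Nat.unpair_pair])

lemma E_nn {t n : ℕ} (h : n ≤ 2 * t) (x : ℝ) : 0 ≤ (E θ t n).1 x := by
  have := ln_pos h0 h1 h
  simp only [E, ia, Submodule.coe_smul, Pi.smul_apply, smul_eq_mul, ind_apply]
  split_ifs <;> positivity

lemma F_nn (n : ℕ) (x : ℝ) : 0 ≤ (F θ n).1 x := by
  have := lab_le (n / 2)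
  rw [F]
  split_ifs
  · exact E_nn h0 h1 le_rfl x
  all_goals exact add_nonneg (E_nn h0 h1 (by omega) x) (E_nn h0 h1 (by omega) x)

lemma E_int {t n : ℕ} (h : n ≤ 2 * t) : Integrable (E θ t n).1 ∧ ∫ x, (E θ t n).1 x = 1 := by
  have l := ln_pos h0 h1 h
  have := ind_int (P := 1) (sub_pos.1 l).le (ln θ t n)⁻¹
  exact ⟨this.1, this.2.trans (inv_mul_cancel₀ l.ne')⟩

lemma F_ne (n : ℕ) : T 1 (F θ n) ≠ 0 := by
  have := lab_le (n / 2)
  rw [← norm_pos_iff, Tn]
  simp only [abs_of_nonneg (F_nn h0 h1 n _)]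
  rw [F]
  split_ifs
  · rw [(E_int h0 h1 le_rfl).2]
    exact one_pos
  all_goals
    simp only [Submodule.coe_add, Pi.add_apply]
    rw [integral_add (E_int h0 h1 (by omega)).1 (E_int h0 h1 (by omega)).1, (E_int h0 h1 (by omega)).2,
      (E_int h0 h1 (by omega)).2]
    norm_num

lemma kb2 (a : ℕ → ℝ) (m k : ℕ) (h : m ≤ k) :
    ‖∑ n ∈ range m, a n • T 1 (F θ n)‖ ≤ (1 + 2 * θ) * ‖∑ n ∈ range k, a n • T 1 (F θ n)‖ := by
  have := kb h0 h1 (tr k a) (m := m) (t := k) (by omega)
  have e : ∑ n ∈ range m, tr k a n • F θ n = ∑ n ∈ range m, a n • F θ n := sum_congr rfl fun n hn => by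
    rw [tr, if_pos ((mem_range.1 hn).trans_le h)]
  rw [← nF h0 h1, trs (show k ≤ 2 * k + 1 by omega), e] at this
  simpa only [map_sum, map_smul] using this

lemma dn : Dense (Submodule.span ℝ (Set.range fun n => T 1 (F θ n)) : Set (Lp ℝ 1 (volume : Measure ℝ))) := by
  refine Submodule.dense_iff_topologicalClosure_eq_top.2 (eq_top_iff.2 fun f _ =>
    top_of (q := 1 - θ) (by linarith) (by linarith) _ (Submodule.isClosed_topologicalClosure _) (fun x r => ?_) f)
  obtain ⟨t, n, -, h2, h3⟩ := shrink h0 h1 x r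
  refine ⟨_, h2.1, by unfold ln at h3; linarith [h2.2], Submodule.le_topologicalClosure _ ?_⟩
  have := Submodule.mem_map_of_mem (f := T 1) (span_gm h0 h1 t n)
  rwa [Submodule.map_span, ← Set.range_comp] at this

theorem main : ∃ b : SchauderBasis ℝ (Lp ℝ 1 (volume : Measure ℝ)), (∀ n, ∀ᵐ x, 0 ≤ b n x) ∧
    ∀ m, ‖b.proj m‖ ≤ 1 + 2 * θ := by
  obtain ⟨b, p, q⟩ := grun (fun n => T 1 (F θ n)) (K := 1 + 2 * θ) (by linarith) (kb2 h0 h1) (F_ne h0 h1) (dn h0 h1)
  refine ⟨b, fun n => ?_, q⟩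
  rw [p]
  filter_upwards [MemLp.coeFn_toLp (F θ n).2] with x hx
  exact le_of_le_of_eq (F_nn h0 h1 n x) hx.symm

end

end Pool.Agent.H.MP_c30670_an
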